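import Pool.Agent.X234.OM.RT

/-!
# No uniform threshold for the complexity relative to solutions of `RT^1_2 (A)`

There is a set `A` of natural numbers such that for every `N` the difference of `C(σ | ≥ N)`
and `C(σ | RT^1_2(A))` is unbounded.
-/

set_option autoImplicit false

namespace Pool.Agent.Results.MP_7b562e_lc.NoUniformThreshold

/-- The initial segment `X(0) … X(k-1)` of the oracle `X`. -/
def ini (X : ℕ → Bool) (k : ℕ) : List Bool := (List.range k).map X

/-- `W` is the set of axioms of an oracle machine: the axiom `W τ p s` says that the machine outputs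
`s` for the program `p` whenever the string `τ` is an initial segment of the oracle. `Out W X p s`:
the machine outputs `s` for the program `p` and the oracle `X`. -/
def Out (W : List Bool → List Bool → List Bool → Prop) (X : ℕ → Bool) (p s : List Bool) : Prop :=
  ∃ k, W (ini X k) p s

/-- An oracle machine is a recursively enumerable set of axioms which give at most one output for
each oracle and each program. -/
def OracleMachine (W : List Bool → List Bool → List Bool → Prop) : Prop :=
  (REPred fun q : List Bool × List Bool × List Bool => W q.1 q.2.1 q.2.2) ∧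
    ∀ X p s s', Out W X p s → Out W X p s' → s = s'

/-- Universal (optimal) oracle machines: they simulate every other oracle machine, for all oracles,
with programs longer by at most a constant. -/
def Universal (W : List Bool → List Bool → List Bool → Prop) : Prop :=
  OracleMachine W ∧ ∀ W' : List Bool → List Bool → List Bool → Prop, OracleMachine W' →
    ∃ c : ℕ, ∀ X p s, Out W' X p s → ∃ q : List Bool, q.length ≤ p.length + c ∧ Out W X q s

/-- Plain complexity `C^X(s)` relative to the oracle `X`, for the oracle machine `W`. -/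
noncomputable def oracleC (W : List Bool → List Bool → List Bool → Prop) (X : ℕ → Bool)
    (s : List Bool) : ℕ :=
  sInf {n | ∃ p : List Bool, p.length = n ∧ Out W X p s}

/-- Universal (optimal) conditional machines; the conditions are natural numbers and `D p n` is the
output for the program `p` and the condition `n`. -/
def UniversalCond (D : List Bool → ℕ →. List Bool) : Prop :=
  Partrec₂ D ∧ ∀ E : List Bool → ℕ →. List Bool, Partrec₂ E →
    ∃ c : ℕ, ∀ p n s, s ∈ E p n → ∃ q : List Bool, q.length ≤ p.length + c ∧ s ∈ D q n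

/-- Plain complexity `C(s | n)` conditional on the number `n`, for the conditional machine `D`. -/
noncomputable def condC (D : List Bool → ℕ →. List Bool) (s : List Bool) (n : ℕ) : ℕ :=
  sInf {m | ∃ p : List Bool, p.length = m ∧ s ∈ D p n}

/-- The solutions of `RT^1_2 (A)`: all infinite subsets of `A` and all infinite subsets of the
complement of `A` (sets are identified with their characteristic functions). -/
def RT (A : Set ℕ) : Set (ℕ → Bool) :=
  {X | {n | X n = true}.Infinite ∧ ({n | X n = true} ⊆ A ∨ {n | X n = true} ⊆ Aᶜ)}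

theorem RT_nonempty (A : Set ℕ) : (RT A).Nonempty := by
  classical
  by_cases h : A.Infinite
  · refine ⟨fun n => decide (n ∈ A), ?_, Or.inl ?_⟩
    · simpa using h
    · intro n hn; simpa using hn
  · have h2 : Aᶜ.Infinite := (Set.not_infinite.1 h).infinite_compl
    refine ⟨fun n => decide (n ∈ Aᶜ), ?_, Or.inr ?_⟩
    · have : {n | decide (n ∈ Aᶜ) = true} = Aᶜ := by ext n; simp
      rw [this]; exact h2
    · intro n hn; simpa using hn

theorem exists_greatest {S : Set ℕ} (hS : S.Nonempty) {b : ℕ} (hb : ∀ n ∈ S, n ≤ b) :
    ∃ a, IsGreatest S a :=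
  ⟨sSup S, Nat.sSup_mem hS ⟨b, hb⟩, fun _ hn => le_csSup ⟨b, hb⟩ hn⟩

/-- Universal machines of both kinds exist, and there is a set `A` such that for all universal
machines, all `N` and all bounds `B` there is a string `s` for which the maxima
`C(s | RT^1_2(A))` and `C(s | ≥ N)` exist and the latter exceeds the former by at least `B`. -/
theorem result : (∃ W, Universal W) ∧ (∃ D, UniversalCond D) ∧
    ∃ A : Set ℕ, ∀ W, Universal W → ∀ D, UniversalCond D → ∀ N B : ℕ, ∃ s : List Bool,
      ∃ a b : ℕ, IsGreatest {m | ∃ X ∈ RT A, oracleC W X s = m} a ∧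
        IsGreatest {m | ∃ n, N ≤ n ∧ condC D s n = m} b ∧ a + B ≤ b := by
  refine ⟨X234.OM.exists_universal, X234.OM.exists_optimalCond, X234.OM.AA, ?_⟩
  intro W hW D hD N B
  obtain ⟨s, hs⟩ := X234.OM.main W hW D hD N B
  obtain ⟨c, hc⟩ := X234.OM.CX_len hW
  obtain ⟨c', hc'⟩ := X234.OM.CD_len hD
  obtain ⟨X0, hX0⟩ := RT_nonempty X234.OM.AA
  obtain ⟨a, ha⟩ := exists_greatest (S := {m | ∃ X ∈ RT X234.OM.AA, oracleC W X s = m})
    ⟨_, X0, hX0, rfl⟩ (b := s.length + c) (by
      rintro n ⟨X, -, rfl⟩
      exact hc X s)
  obtain ⟨b, hb⟩ := exists_greatest (S := {m | ∃ n, N ≤ n ∧ condC D s n = m})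
    ⟨_, N, le_rfl, rfl⟩ (b := s.length + c') (by
      rintro n ⟨k, -, rfl⟩
      exact hc' s k)
  refine ⟨s, a, b, ha, hb, ?_⟩
  obtain ⟨X, hX, hXa⟩ := ha.1
  have h1 := hs X hX.1 hX.2
  have h2 : condC D s N ≤ b := hb.2 ⟨N, le_rfl, rfl⟩
  have h3 : oracleC W X s = X234.OM.CX W X s := rfl
  have h4 : condC D s N = X234.OM.CD D s N := rfl
  omega

end Pool.Agent.Results.MP_7b562e_lc.NoUniformThreshold
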